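import Pool.Agent.R910.Open.Main

/-!
# MP_537ea0_ag: injectivity of the Abel-Jacobi map, from powers of divisor classes on affine varieties

Let `k` be an algebraic closure of `ℚ` in `ℂ`, and let `CH` denote Chow groups with rational coefficients.

**Theorem.** These are equivalent.

1. The Abel-Jacobi map is injective, with rational coefficients, on the homologically trivial classes in `CH ^ p (X)`
   for all smooth quasi-projective varieties `X` over `k` and all `p ≥ 1`.
2. The same for all smooth affine varieties.
3. If `D` is a divisor class on a smooth affine variety `A` over `k` and `D ^ r`, `r ≥ 1`, is homologically trivial and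
   in the kernel of the Abel-Jacobi map, then `D ^ r = 0` in `CH ^ r (A)`.

(For `p = 0` the cycle class map is injective.) So the question Q1 for all cycles on all smooth quasi-projective
varieties is a question on powers of one divisor class on smooth affine varieties. If `2 r > dim A + 1`, then the
cohomology groups `H ^ (2 r) (A)` and `H ^ (2 r - 1) (A)` vanish, so that in this range 3 says that `D ^ r = 0` for all divisor
classes `D` on `A`.

In the Lean statement `𝒬` is the class of all smooth quasi-projective varieties over `k`, and `IsQuasiProjective`
collects the known facts which are used: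

* the Abel-Jacobi maps are compatible with pull-backs and with products with classes of cycles;
* vector bundles, their Chern classes and Chern characters (with the identities of Newton), sums, tensor products,
  Serre's theorem (for `V` there is a line bundle `L` such that `V ⊗ L` is a sub-bundle of a trivial bundle), the
  isomorphism `ch : K_0(X) → CH(X)` (rationally), and the bundles of lines: `q_* ξ ^ (r - 1) = 1`, `q_* ξ ^ i = 0` for
  `i < r - 1`, `∑ c_i ξ ^ (r - i) = 0`;
* Jouanolou's trick: each `X` has a torsor `A → X` under a vector bundle with `A` affine, and `CH(X) → CH(A)` is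
  injective.

Proof of 3 ⇒ 1. Let `w` in `CH ^ p (X)` be homologically trivial and in the kernel of the Abel-Jacobi map. Choose bundles
`V`, `V'` with `ch V - ch V' = N w`, `N ≠ 0`, and `L`, `Q` with `ch(V' ⊗ L) + ch(Q) = m`. Then `U = (V ⊗ L) ⊕ Q` has the Chern
character `m + N w ch(L)`, so that the Chern classes of `U` of positive degree are multiples of `w`, and `w` is in the
ideal which they generate. Let `q : P → X` be the bundle of lines in `U`, of rank `r`. Since
`ξ ^ r = - ∑ c_i(U) ξ ^ (r - i)`, `ξ ^ r` is a multiple of `q^* w`, and so it is in the kernel of the Abel-Jacobi map; its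
pull-back to a torsor `A → P` is `0` by 3, and so `ξ ^ r = 0`. Since `q_*(ξ ^ (r - 1 + i)) = - c_i(U) - ⋯`, the `c_i(U)`, and so
`w`, are in the ideal `q_*(ξ ^ r · CH(P)) = 0`.
-/

open CategoryTheory AlgebraicGeometry

universe u v w w'

namespace Pool.Agent.Results.MP_537ea0_ag.AffinePowers

open Pool.Agent.R910.Open

/-- **The Abel-Jacobi maps for all smooth quasi-projective varieties are injective if they are injective on powers of
divisor classes on smooth affine varieties.** -/
theorem result {k : Type u} [Field k] (C : OpenData.{u, v, w, w'} k) (𝒬 : Set (Sch k))
    (h𝒬 : C.IsQuasiProjective 𝒬) :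
    List.TFAE [
      ∀ X ∈ 𝒬, C.AJInjective X,
      ∀ A ∈ 𝒬, IsAffine A.left → C.AJInjective A,
      ∀ A ∈ 𝒬, IsAffine A.left → C.AJInjectiveOnPowers A] :=
  ajInjective_tfae h𝒬

end Pool.Agent.Results.MP_537ea0_ag.AffinePowers
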