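import Pool.Agent.R914.Cell.Main

/-!
# Injectivity for open subvarieties of cellular varieties and standard conjecture D
-/

universe u v

namespace Pool.Agent.Results.MP_537ea0_ag.CellularOpen

open Pool.Agent.H914 Pool.Agent.R914.Cell

/-- The cycle class maps, with rational coefficients, of all open subvarieties of the varieties of
a classifying class `G` (for example of the products of Grassmannians) are injective if and only if
numerical and homological equivalence coincide on all varieties. -/
theorem result {k : Type u} [Field k] {𝒱 : VarClass k} {ops : CycleOps 𝒱}
    (W : WeilCohomology.{u, v} ops) (hW : HasRationalCoefficients W) (R : RatEquiv W)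
    (G : 𝒱.Obj → Prop) (hG : IsClassifyingClass R G) :
    (∀ V : OpenVar 𝒱, G V.X → ∀ e, HomIsRat R V e) ↔
      ∀ (Y : 𝒱.Obj) (e : ℕ), NumIsHom W Y e :=
  main hW R G hG

end Pool.Agent.Results.MP_537ea0_ag.CellularOpen
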