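import Pool.Agent.R940.NFin

/-!
# A growth law for the kernel of the Abel-Jacobi map, and for all theories of Chow type

Let `X` be an abelian variety of dimension `d` over a field `k`, or a product of curves, or any
smooth projective variety whose motive is finite-dimensional in the sense of Kimura and whose even
Künneth projector is algebraic, and `b` the sum of its Betti numbers. Let `𝒯` be any theory which
assigns rational vector spaces `T Y j` to the smooth projective varieties `Y`, on which the
correspondences modulo rational equivalence act (`CorrTheory`). Examples:

* `k` a number field or `k = ℚ̄`, and `T Y j` the kernel of the Abel-Jacobi map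
  `CH^j_hom(Y; ℚ) → J^j(Y(ℂ)) ⊗ ℚ` (the question Q1 asks whether it is zero; here `i = 0`);
* the kernel of the Abel-Jacobi map of `Z × Y`, for a fixed arbitrary smooth projective variety `Z`
  (`i = dim Z`);
* the groups `CH^j(Y, i) ⊗ ℚ` for a finite field `k` and a fixed `i ≥ 1`, that is the eigenspaces of
  the Adams operations on `K_i(Y) ⊗ ℚ` (Parshin's conjecture says that they are zero);
* the group of the numerically trivial cycles modulo rational equivalence, the Griffiths groups, the
  kernels of the `ℓ`-adic Abel-Jacobi maps, and so on.

Let `ρ n > 0` be the rank of the group of the cycles of codimension `(n + 1) d` on `X ^ (2 n + 2)` modulo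
numerical equivalence.

Theorem. 1. If `T (X ^ (κ + 1)) j ≠ 0`, then for each `e` with `j - (κ + 1) d ≤ e ≤ j` and for ALL
`n ≥ 1` the dimension of `T (X ^ (2 n + 2)) ((n + 1) d + e)` is infinite or at least

  `(1 - (κ + 1) b ^ (2 κ + 4) log (n + 2) / n) ρ n`.

2. If `T Y j = 0` unless `0 ≤ j ≤ dim Y + i`, then for each `κ` either `T (X ^ (κ + 1)) = 0`, or
there is an `e ≤ i` such that this holds for all `n ≥ 1`.

In the first example: either the Abel-Jacobi map is injective (with rational coefficients) for
all powers of the abelian variety `X`, in all codimensions, or for all large `n` there are, in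
`CH^((n + 1) d)(X ^ (2 n + 2))`, at least `(1 - o(1)) ρ n` linearly independent classes in the
kernel of the Abel-Jacobi map, that is asymptotically at least as many as there are classes
modulo numerical equivalence; this number grows exponentially with `n` if `b ≥ 2`. So one class in the
kernel makes the counterexamples as frequent as all cycles, with an explicit error term, and to prove
the injectivity for `X ^ (κ + 1)` it is enough to show that the kernel for a single
`X ^ (2 n + 2)`, with `n` explicit in terms of `b` and `κ`, in the middle codimension, has a smaller
dimension than `ρ n / 2`.

The hypotheses: `NilPowers 𝒯 X` says that the numerically trivial correspondences from `X ^ m` to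
`X ^ m` act nilpotently on the theory, for all `m`; Kimura has proved this for the varieties above (the
numerically trivial endomorphisms of a finite-dimensional motive form a nilpotent ideal of its
endomorphisms modulo rational equivalence). `W` is a Weil cohomology theory for which the even Künneth
projector of `X` is algebraic (`SignStd`), and `D` is a divisor on `X` whose top self-intersection is not
zero. The cohomology theory enters only through its existence and the number `b`.

The proof: with coefficients in an algebraically closed field, the operators given by correspondences on
`H(X ^ (2 κ + 2))` modulo the radical of the trace form are a product of matrix algebras. Since the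
numerically trivial correspondences act nilpotently on `T`, one of the primitive idempotents acts
nontrivially modulo them (Nakayama), and the homomorphisms from the corresponding summand of
`H(X ^ (2 κ + 2))` to `H(X ^ (2 n + 2))`, modulo numerical equivalence, map a suitable element of the
theory to linearly independent elements. Their number is asymptotically a multiple of `ρ n`, by the
effective law of the earlier files.
-/

open CategoryTheory AlgebraicGeometry

universe u v w

namespace Pool.Agent.Results.MP_537ea0_ag.GrowthLaw

open Pool.Agent.H914 Pool.Agent.H447 Pool.Agent.W534 Pool.Agent.Y163 Pool.Agent.R940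
  VarClass Obj

/-- A theory on which the correspondences act vanishes on a power of `X`, or it grows on the even
powers of `X` at least like the group of cycles modulo numerical equivalence. -/
theorem result {k : Type u} [Field k] {𝒱 : VarClass k} {ops : CycleOps 𝒱}
    (W : WeilCohomology.{u, v} ops) (X : 𝒱.Obj) (hX : SignStd W X)
    (D : X.Cycles) (hD : X.IsCyc 1 D) (hbig : Big ops X D)
    (𝒯 : CorrTheory.{u, w} ops) (hnil : NilPowers 𝒯 X) :
    (∀ (κ : ℕ) (j e : ℤ), (∃ x : 𝒯.T (pw X κ) j, x ≠ 0) → j - (κ + 1) * X.dim ≤ e → e ≤ j →
      GrowsAt 𝒯 X ((κ + 1) * betti W X ^ (2 * κ + 4)) e) ∧
    ∀ i κ : ℕ, SupportedTo 𝒯 i → VanishesOn 𝒯 (pw X κ) ∨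
      ∃ e : ℕ, e ≤ i ∧ GrowsAt 𝒯 X ((κ + 1) * betti W X ^ (2 * κ + 4)) e :=
  ⟨fun _ _ _ ⟨_, hx⟩ he he' => growth_law hX hD hbig hnil hx he he',
    fun _ κ hi => growth_dichotomy hX hD hbig hnil hi κ⟩

end Pool.Agent.Results.MP_537ea0_ag.GrowthLaw
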