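import Pool.Agent.R914.Cell.Low

/-!
# Cycles of dimension or codimension at most two on open subvarieties of cellular varieties
-/

universe u v

namespace Pool.Agent.Results.MP_537ea0_ag.LowDimension

open Pool.Agent.H914 Pool.Agent.R914.Cell

/-- The cycle class map with rational coefficients of an open subvariety of a cellular variety is
injective on the cycles of dimension at most `2` and on the cycles of codimension at most `2`. -/
theorem result {k : Type u} [Field k] {𝒱 : VarClass k} {ops : CycleOps 𝒱}
    (W : WeilCohomology.{u, v} ops) (hW : HasRationalCoefficients W)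
    (Ψ : HodgeSpaces W) (hpol : IsPolarised Ψ) (hlef : LefschetzOneOne Ψ) (R : RatEquiv W)
    (V : OpenVar 𝒱) (hV : IsCellular W R V.X) (hdim : ∀ i, (V.Y i).dim < V.X.dim)
    (e : ℕ) (he : e ≤ 2 ∨ V.X.dim ≤ e + 2) : HomIsRat R V e :=
  low hW hpol hlef R V hV hdim e he

end Pool.Agent.Results.MP_537ea0_ag.LowDimension
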